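import Mathlib

/-!
# Separated and spanning numbers of a dynamical system (definitions and basic facts)
-/

namespace Pool.Agent.R729.Weiss

open Filter Topology

section Defs

variable {X : Type} [MetricSpace X]

/-- The Bowen distance `D_T(x,y) = max_{0 ≤ t ≤ T-1} D(F^t x, F^t y)`. -/
noncomputable def bowenDist (F : X → X) (T : ℕ) (x y : X) : ℝ :=
  ⨆ t : Fin T, dist (F^[(t : ℕ)] x) (F^[(t : ℕ)] y)

/-- `S` is `ε`-separated for `D_T`. -/
def IsSep (F : X → X) (ε : ℝ) (T : ℕ) (S : Finset X) : Prop :=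
  ∀ x ∈ S, ∀ y ∈ S, x ≠ y → ε ≤ bowenDist F T x y

/-- `S` is `ε`-spanning for `D_T`. -/
def IsSpan (F : X → X) (ε : ℝ) (T : ℕ) (S : Finset X) : Prop :=
  ∀ x : X, ∃ s ∈ S, bowenDist F T s x < ε

/-- `sep(X,ε,D_T)`: the largest size of an `ε`-separated set. -/
noncomputable def sepNum (F : X → X) (ε : ℝ) (T : ℕ) : ℕ :=
  sSup {n | ∃ S : Finset X, IsSep F ε T S ∧ S.card = n}

/-- `span(X,ε,D_T)`: the smallest size of an `ε`-spanning set. -/
noncomputable def spanNum (F : X → X) (ε : ℝ) (T : ℕ) : ℕ :=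
  sInf {n | ∃ S : Finset X, IsSpan F ε T S ∧ S.card = n}

/-- `liminf_T ln sep(X,ε,D_T) / T`. -/
noncomputable def sLow (F : X → X) (ε : ℝ) : EReal :=
  liminf (fun T : ℕ => ((Real.log (sepNum F ε T) / T : ℝ) : EReal)) atTop

/-- `limsup_T ln sep(X,ε,D_T) / T`. -/
noncomputable def sUp (F : X → X) (ε : ℝ) : EReal :=
  limsup (fun T : ℕ => ((Real.log (sepNum F ε T) / T : ℝ) : EReal)) atTop

/-- `liminf_T ln span(X,ε,D_T) / T`. -/
noncomputable def pLow (F : X → X) (ε : ℝ) : EReal :=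
  liminf (fun T : ℕ => ((Real.log (spanNum F ε T) / T : ℝ) : EReal)) atTop

/-- `limsup_T ln span(X,ε,D_T) / T`. -/
noncomputable def pUp (F : X → X) (ε : ℝ) : EReal :=
  limsup (fun T : ℕ => ((Real.log (spanNum F ε T) / T : ℝ) : EReal)) atTop

/-- `F` has a dense forward orbit. -/
def Transitive (F : X → X) : Prop := ∃ x : X, Dense (Set.range fun n : ℕ => F^[n] x)

end Defs

section Basic

variable {X : Type} [MetricSpace X]

lemma bowen_lt {F : X → X} {T : ℕ} {x y : X} {ε : ℝ} (hε : 0 < ε) :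
    bowenDist F T x y < ε ↔ ∀ t < T, dist (F^[t] x) (F^[t] y) < ε := by
  unfold bowenDist
  constructor
  · intro h t ht
    refine lt_of_le_of_lt ?_ h
    exact le_ciSup (f := fun t : Fin T => dist (F^[(t : ℕ)] x) (F^[(t : ℕ)] y))
      (Set.finite_range _).bddAbove ⟨t, ht⟩
  · intro h
    rcases Nat.eq_zero_or_pos T with h0 | h0
    · subst h0
      simpa using hε
    · have : Nonempty (Fin T) := ⟨⟨0, h0⟩⟩
      obtain ⟨i, hi⟩ := exists_eq_ciSup_of_finite
        (f := fun t : Fin T => dist (F^[(t : ℕ)] x) (F^[(t : ℕ)] y))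
      rw [← hi]
      exact h i i.2

lemma le_bowen {F : X → X} {T : ℕ} {x y : X} {ε : ℝ} {t : ℕ} (ht : t < T)
    (h : ε ≤ dist (F^[t] x) (F^[t] y)) : ε ≤ bowenDist F T x y := by
  unfold bowenDist
  refine h.trans ?_
  exact le_ciSup (f := fun t : Fin T => dist (F^[(t : ℕ)] x) (F^[(t : ℕ)] y))
      (Set.finite_range _).bddAbove ⟨t, ht⟩

lemma exists_span [CompactSpace X] {F : X → X} (hF : Continuous F) {ε : ℝ} (hε : 0 < ε)
    (T : ℕ) : ∃ S : Finset X, IsSpan F ε T S := by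
  obtain ⟨S, hS⟩ := CompactSpace.elim_nhds_subcover
    (fun x : X => {y | ∀ t ∈ Finset.range T, dist (F^[t] x) (F^[t] y) < ε}) (by
      intro x
      rw [← Filter.eventually_iff]
      rw [Filter.eventually_all_finset]
      intro t _
      have hc : Continuous fun y => dist (F^[t] x) (F^[t] y) :=
        continuous_const.dist (hF.iterate t)
      have := hc.tendsto x
      simp only [dist_self] at this
      exact this.eventually_lt_const hε)
  refine ⟨S, fun x => ?_⟩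
  have hx : x ∈ (⊤ : Set X) := trivial
  rw [← hS] at hx
  simp only [Set.mem_iUnion] at hx
  obtain ⟨s, hs, hsx⟩ := hx
  exact ⟨s, hs, (bowen_lt hε).2 fun t ht => hsx t (Finset.mem_range.2 ht)⟩

lemma spanNum_le {F : X → X} {ε : ℝ} {T : ℕ} {S : Finset X} (h : IsSpan F ε T S) :
    spanNum F ε T ≤ S.card := Nat.sInf_le ⟨S, h, rfl⟩

lemma le_spanNum [CompactSpace X] {F : X → X} (hF : Continuous F) {ε : ℝ} (hε : 0 < ε)
    {T N : ℕ} (h : ∀ S : Finset X, IsSpan F ε T S → N ≤ S.card) : N ≤ spanNum F ε T := by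
  unfold spanNum
  refine le_csInf ?_ ?_
  · obtain ⟨S, hS⟩ := exists_span hF hε T
    exact ⟨S.card, S, hS, rfl⟩
  · rintro n ⟨S, hS, rfl⟩
    exact h S hS

lemma sepNum_le {F : X → X} {ε : ℝ} {T N : ℕ} (h : ∀ S : Finset X, IsSep F ε T S → S.card ≤ N) :
    sepNum F ε T ≤ N := by
  unfold sepNum
  refine csSup_le ⟨0, ∅, ?_, rfl⟩ ?_
  · intro x hx
    simp at hx
  · rintro n ⟨S, hS, rfl⟩
    exact h S hS

lemma le_sepNum {F : X → X} {ε : ℝ} {T N : ℕ} (h : ∀ S : Finset X, IsSep F ε T S → S.card ≤ N)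
    {S : Finset X} (hS : IsSep F ε T S) : S.card ≤ sepNum F ε T := by
  unfold sepNum
  refine le_csSup ⟨N, ?_⟩ ⟨S, hS, rfl⟩
  rintro n ⟨S, hS, rfl⟩
  exact h S hS

end Basic

end Pool.Agent.R729.Weiss
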