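import Mathlib

/-!
# The transitive point: blocks inserted with long gaps

`P_{j+1} = P_j #^{L_j} B_j #^{L_j} P_j`; `x0` is the limit of the `P_j`, and `#` on the negatives.
-/

namespace Pool.Agent.R729.Weiss

section Seq

variable {α : Type} (h : α) (W : ℕ → ℤ → α) (b : ℕ → ℕ)

/-- length of `P_j` -/
def nn (b : ℕ → ℕ) : ℕ → ℕ
  | 0 => 0
  | j + 1 => 2 * nn b j + 2 * max (nn b j) (max (b j) (j + 1)) + b j

/-- gap length -/
def LL (b : ℕ → ℕ) (j : ℕ) : ℕ := max (nn b j) (max (b j) (j + 1))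

lemma nn_zero : nn b 0 = 0 := rfl

lemma nn_succ (j : ℕ) : nn b (j + 1) = 2 * nn b j + 2 * LL b j + b j := rfl

lemma nn_le_LL (j : ℕ) : nn b j ≤ LL b j := le_max_left _ _

lemma b_le_LL (j : ℕ) : b j ≤ LL b j := (le_max_left _ _).trans (le_max_right _ _)

lemma succ_le_LL (j : ℕ) : j + 1 ≤ LL b j := (le_max_right _ _).trans (le_max_right _ _)

lemma le_nn (j : ℕ) : j ≤ nn b j := by
  induction j with
  | zero => exact Nat.zero_le _
  | succ j _ =>
    have := nn_succ b j
    have := succ_le_LL b j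
    omega

lemma nn_mono : Monotone (nn b) := by
  refine monotone_nat_of_le_succ fun j => ?_
  have := nn_succ b j
  omega

lemma LL_mono : Monotone (LL b) := by
  refine monotone_nat_of_le_succ fun j => ?_
  have := nn_succ b j
  have := nn_le_LL b (j + 1)
  omega

/-- the word `P_j` padded by `#` on both sides -/
def qq : ℕ → ℤ → α
  | 0, _ => h
  | j + 1, i =>
    if i < nn b j + LL b j then qq j i
    else if i < nn b j + 2 * LL b j + b j then W j (i - (nn b j + LL b j))
    else qq j (i - (nn b j + 2 * LL b j + b j))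

lemma qq_zero (i : ℤ) : qq h W b 0 i = h := rfl

lemma qq_A (j : ℕ) (i : ℤ) (hi : i < nn b j + LL b j) : qq h W b (j + 1) i = qq h W b j i := by
  rw [qq, if_pos hi]

variable (hW : ∀ j (i : ℤ), (i < 0 ∨ (b j : ℤ) ≤ i) → W j i = h)

include hW

lemma qq_pad (j : ℕ) : ∀ i : ℤ, (i < 0 ∨ (nn b j : ℤ) ≤ i) → qq h W b j i = h := by
  induction j with
  | zero => intro i _; rfl
  | succ j ih =>
    intro i hi
    rw [qq]
    have h1 := nn_succ b j
    split_ifs with h2 h3
    · apply ih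
      omega
    · apply hW
      omega
    · apply ih
      omega

lemma qq_B (j : ℕ) (i : ℤ) (h1 : (nn b j : ℤ) ≤ i) (h2 : i < nn b j + 2 * LL b j + b j) :
    qq h W b (j + 1) i = W j (i - (nn b j + LL b j)) := by
  rw [qq]
  split_ifs with h3
  · rw [hW j _ (by omega)]
    exact qq_pad h W b hW j i (by omega)
  · rfl

lemma qq_C (j : ℕ) (i : ℤ) (h1 : (nn b j : ℤ) + LL b j + b j ≤ i) :
    qq h W b (j + 1) i = qq h W b j (i - (nn b j + 2 * LL b j + b j)) := by
  rw [qq, if_neg (by omega)]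
  split_ifs with h3
  · rw [hW j _ (by omega)]
    exact (qq_pad h W b hW j _ (by omega)).symm
  · rfl

omit hW in
lemma qq_stable (J k : ℕ) (i : ℤ) (hi : i < nn b J) : qq h W b (J + k) i = qq h W b J i := by
  induction k with
  | zero => rfl
  | succ k ih =>
    rw [← ih, ← add_assoc, qq_A]
    have := nn_mono b (Nat.le_add_right J k)
    omega

/-- the transitive point -/
def x0 (i : ℤ) : α := qq h W b (i.toNat + 1) i

omit hW in
lemma x0_eq' (J : ℕ) (i : ℤ) (hi : i < nn b J) : x0 h W b i = qq h W b J i := by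
  unfold x0
  have h1 : i < nn b (i.toNat + 1) := by
    have := le_nn b (i.toNat + 1)
    omega
  rcases le_total J (i.toNat + 1) with h2 | h2
  · obtain ⟨k, hk⟩ := Nat.exists_eq_add_of_le h2
    rw [hk]
    exact qq_stable h W b J k i hi
  · obtain ⟨k, hk⟩ := Nat.exists_eq_add_of_le h2
    rw [hk]
    exact (qq_stable h W b _ k i h1).symm

omit hW in
lemma x0_eq (J : ℕ) (i : ℤ) (hi : i < nn b J + LL b J) : x0 h W b i = qq h W b J i := by
  have h1 := nn_succ b J
  rw [x0_eq' h W b (J + 1) i (by omega), qq_A h W b J i hi]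

/-- every block occurs, surrounded by long gaps -/
lemma x0_block (J : ℕ) (i : ℤ) (h1 : -(LL b J : ℤ) ≤ i) (h2 : i < b J + LL b J) :
    x0 h W b (nn b J + LL b J + i) = W J i := by
  have h3 := nn_succ b J
  rw [x0_eq' h W b (J + 1) _ (by omega), qq_B h W b hW J _ (by omega) (by omega)]
  congr 1
  ring

/-- recurrence -/
lemma x0_rec (J : ℕ) (i : ℤ) (h1 : -(LL b J : ℤ) ≤ i) (h2 : i < nn b J) :
    x0 h W b (i + (nn b J + 2 * LL b J + b J)) = x0 h W b i := by
  have h3 := nn_succ b J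
  rw [x0_eq' h W b (J + 1) _ (by omega), qq_C h W b hW J _ (by omega), x0_eq' h W b J i h2]
  congr 1
  ring

lemma qq_window (T j0 : ℕ) (hT : ∀ j, j0 ≤ j → T ≤ LL b j) (k : ℕ) : ∀ i : ℤ,
    (∃ i' : ℤ, ∀ t : ℤ, 0 ≤ t → t < T → qq h W b (j0 + k) (i + t) = qq h W b j0 (i' + t)) ∨
    (∃ l, j0 ≤ l ∧ ∃ i' : ℤ, ∀ t : ℤ, 0 ≤ t → t < T →
      qq h W b (j0 + k) (i + t) = W l (i' + t)) := by
  induction k with
  | zero => intro i; exact Or.inl ⟨i, fun t _ _ => rfl⟩
  | succ k ih =>
    intro i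
    have hL := hT (j0 + k) (Nat.le_add_right _ _)
    rw [← add_assoc]
    by_cases hA : i + T ≤ nn b (j0 + k) + LL b (j0 + k)
    · rcases ih i with ⟨i', h1⟩ | ⟨l, hl, i', h1⟩
      · refine Or.inl ⟨i', fun t ht1 ht2 => ?_⟩
        rw [qq_A h W b _ _ (by omega)]
        exact h1 t ht1 ht2
      · refine Or.inr ⟨l, hl, i', fun t ht1 ht2 => ?_⟩
        rw [qq_A h W b _ _ (by omega)]
        exact h1 t ht1 ht2
    · by_cases hC : (nn b (j0 + k) : ℤ) + LL b (j0 + k) + b (j0 + k) ≤ i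
      · rcases ih (i - (nn b (j0 + k) + 2 * LL b (j0 + k) + b (j0 + k))) with
          ⟨i', h1⟩ | ⟨l, hl, i', h1⟩
        · refine Or.inl ⟨i', fun t ht1 ht2 => ?_⟩
          rw [qq_C h W b hW _ _ (by omega), ← h1 t ht1 ht2]
          congr 1
          ring
        · refine Or.inr ⟨l, hl, i', fun t ht1 ht2 => ?_⟩
          rw [qq_C h W b hW _ _ (by omega), ← h1 t ht1 ht2]
          congr 1
          ring
      · refine Or.inr ⟨j0 + k, Nat.le_add_right _ _,
          i - (nn b (j0 + k) + LL b (j0 + k)), fun t ht1 ht2 => ?_⟩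
        rw [qq_B h W b hW _ _ (by omega) (by omega)]
        congr 1
        ring

/-- the windows of length `T` of the transitive point -/
lemma x0_window (T j0 : ℕ) (hT : ∀ j, j0 ≤ j → T ≤ LL b j) (i : ℤ) :
    (∃ i' : ℤ, -(T : ℤ) ≤ i' ∧ i' ≤ nn b j0 ∧
      ∀ t : ℤ, 0 ≤ t → t < T → x0 h W b (i + t) = qq h W b j0 (i' + t)) ∨
    (∃ l, j0 ≤ l ∧ ∃ i' : ℤ, ∀ t : ℤ, 0 ≤ t → t < T → x0 h W b (i + t) = W l (i' + t)) := by
  have h1 : i + T ≤ nn b (j0 + (i + T).toNat) := by
    have := le_nn b (j0 + (i + T).toNat)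
    omega
  rcases qq_window h W b hW T j0 hT (i + T).toNat i with ⟨i', h2⟩ | ⟨l, hl, i', h2⟩
  · left
    by_cases ha : i' < -(T : ℤ)
    · refine ⟨-(T : ℤ), le_rfl, by omega, fun t ht1 ht2 => ?_⟩
      rw [x0_eq' h W b _ _ (show i + t < nn b (j0 + (i + T).toNat) by omega), h2 t ht1 ht2,
        qq_pad h W b hW j0 _ (by omega), qq_pad h W b hW j0 _ (by omega)]
    · by_cases hb : (nn b j0 : ℤ) < i'
      · refine ⟨nn b j0, by omega, le_rfl, fun t ht1 ht2 => ?_⟩
        rw [x0_eq' h W b _ _ (show i + t < nn b (j0 + (i + T).toNat) by omega), h2 t ht1 ht2,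
          qq_pad h W b hW j0 _ (by omega), qq_pad h W b hW j0 _ (by omega)]
      · refine ⟨i', by omega, by omega, fun t ht1 ht2 => ?_⟩
        rw [x0_eq' h W b _ _ (show i + t < nn b (j0 + (i + T).toNat) by omega), h2 t ht1 ht2]
  · right
    refine ⟨l, hl, i', fun t ht1 ht2 => ?_⟩
    rw [x0_eq' h W b _ _ (show i + t < nn b (j0 + (i + T).toNat) by omega), h2 t ht1 ht2]

lemma qq_free (T : ℕ) (hT : 1 ≤ T) (J : ℕ) : ∀ i : ℤ,
    (∀ t : ℤ, 0 ≤ t → t < T → qq h W b J (i + t) ≠ h) →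
    ∃ l, ∃ i' : ℤ, ∀ t : ℤ, 0 ≤ t → t < T → qq h W b J (i + t) = W l (i' + t) := by
  induction J with
  | zero =>
    intro i hi
    exact absurd rfl (hi 0 le_rfl (by omega))
  | succ J ih =>
    intro i hi
    have hL := succ_le_LL b J
    by_cases hA : i + T ≤ nn b J + LL b J
    · obtain ⟨l, i', h1⟩ := ih i (fun t ht1 ht2 => by
        have := hi t ht1 ht2
        rwa [qq_A h W b _ _ (by omega)] at this)
      refine ⟨l, i', fun t ht1 ht2 => ?_⟩
      rw [qq_A h W b _ _ (by omega)]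
      exact h1 t ht1 ht2
    · by_cases hC : (nn b J : ℤ) + LL b J + b J ≤ i
      · obtain ⟨l, i', h1⟩ := ih (i - (nn b J + 2 * LL b J + b J)) (fun t ht1 ht2 => by
          have := hi t ht1 ht2
          rw [qq_C h W b hW _ _ (by omega)] at this
          convert this using 2
          ring)
        refine ⟨l, i', fun t ht1 ht2 => ?_⟩
        rw [qq_C h W b hW _ _ (by omega), ← h1 t ht1 ht2]
        congr 1
        ring
      · have h1 : (nn b J : ℤ) ≤ i := by
          by_contra h2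
          push Not at h2
          refine hi (nn b J - i) (by omega) (by omega) ?_
          rw [qq_A h W b _ _ (by omega)]
          exact qq_pad h W b hW J _ (by omega)
        have h2 : i + T ≤ nn b J + 2 * LL b J + b J := by
          by_contra h2
          push Not at h2
          refine hi (nn b J + LL b J + b J - i) (by omega) (by omega) ?_
          rw [qq_B h W b hW _ _ (by omega) (by omega)]
          exact hW _ _ (by omega)
        refine ⟨J, i - (nn b J + LL b J), fun t ht1 ht2 => ?_⟩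
        rw [qq_B h W b hW _ _ (by omega) (by omega)]
        congr 1
        ring

/-- windows without `#` are inside a block -/
lemma x0_free (T : ℕ) (hT : 1 ≤ T) (i : ℤ)
    (hi : ∀ t : ℤ, 0 ≤ t → t < T → x0 h W b (i + t) ≠ h) :
    ∃ l, ∃ i' : ℤ, ∀ t : ℤ, 0 ≤ t → t < T → x0 h W b (i + t) = W l (i' + t) := by
  have h1 : i + T ≤ nn b (i + T).toNat := by
    have := le_nn b (i + T).toNat
    omega
  have h2 : ∀ t : ℤ, 0 ≤ t → t < T → x0 h W b (i + t) = qq h W b (i + T).toNat (i + t) := by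
    intro t ht1 ht2
    exact x0_eq' h W b _ _ (by omega)
  obtain ⟨l, i', h3⟩ := qq_free h W b hW T hT (i + T).toNat i (fun t ht1 ht2 => by
    rw [← h2 t ht1 ht2]
    exact hi t ht1 ht2)
  exact ⟨l, i', fun t ht1 ht2 => by rw [h2 t ht1 ht2]; exact h3 t ht1 ht2⟩

omit hW in
/-- the level of the window length `T` -/
lemma exists_level (T : ℕ) : ∃ j0, (∀ j, j0 ≤ j → T ≤ LL b j) ∧ nn b j0 ≤ 5 * T := by
  classical
  have hex : ∃ j, T ≤ LL b j := ⟨T, by have := succ_le_LL b T; omega⟩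
  refine ⟨Nat.find hex, fun j hj => (Nat.find_spec hex).trans (LL_mono b hj), ?_⟩
  rcases Nat.eq_zero_or_pos (Nat.find hex) with h0 | h0
  · rw [h0, nn_zero]
    exact Nat.zero_le _
  · obtain ⟨j, hj⟩ := Nat.exists_eq_succ_of_ne_zero h0.ne'
    have h1 : ¬ T ≤ LL b j := Nat.find_min hex (by omega)
    rw [hj, Nat.succ_eq_add_one, nn_succ]
    have := nn_le_LL b j
    have := b_le_LL b j
    omega

end Seq

end Pool.Agent.R729.Weiss
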