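import Mathlib
import Pool.Agent.R729.Weiss.Defs

/-!
# Full shift over a compact metric alphabet with the metric `sup 2^{-|i|} ρ(x_i,y_i)`
-/

namespace Pool.Agent.R729.Weiss

open Filter Topology

/-- metric spaces of diameter at most one -/
class UnitDiam (K : Type) [MetricSpace K] : Prop where
  le_one : ∀ x y : K, dist x y ≤ 1

/-- bi-infinite sequences over `K`, with the metric `sup_i 2^{-|i|} ρ(x_i,y_i)` -/
def Cfg (K : Type) : Type := ℤ → K

/-- weights -/
noncomputable def wt (i : ℤ) : ℝ := (1 / 2 : ℝ) ^ i.natAbs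

lemma wt_pos (i : ℤ) : 0 < wt i := by unfold wt; positivity

lemma wt_le_one (i : ℤ) : wt i ≤ 1 := by
  unfold wt
  exact pow_le_one₀ (by norm_num) (by norm_num)

lemma wt_zero : wt 0 = 1 := by simp [wt]

lemma wt_le (i : ℤ) (m : ℕ) (h : m ≤ i.natAbs) : wt i ≤ (1 / 2 : ℝ) ^ m := by
  unfold wt
  exact pow_le_pow_of_le_one (by norm_num) (by norm_num) h

variable {K : Type} [MetricSpace K] [UnitDiam K]

noncomputable instance : Dist (Cfg K) := ⟨fun x y => ⨆ i : ℤ, wt i * dist (x i) (y i)⟩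

omit [UnitDiam K] in
lemma cfg_dist (x y : Cfg K) : dist x y = ⨆ i : ℤ, wt i * dist (x i) (y i) := rfl

omit [UnitDiam K] in
lemma term_nonneg (x y : Cfg K) (i : ℤ) : 0 ≤ wt i * dist (x i) (y i) :=
  mul_nonneg (wt_pos i).le dist_nonneg

lemma term_le_one (x y : Cfg K) (i : ℤ) : wt i * dist (x i) (y i) ≤ 1 := by
  have h1 := wt_le_one i
  have h2 := UnitDiam.le_one (x i) (y i)
  have h3 : 0 ≤ dist (x i) (y i) := dist_nonneg
  have h4 := wt_pos i
  nlinarith

lemma bdd (x y : Cfg K) : BddAbove (Set.range fun i : ℤ => wt i * dist (x i) (y i)) := by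
  refine ⟨1, ?_⟩
  rintro _ ⟨i, rfl⟩
  exact term_le_one x y i

lemma term_le_dist (x y : Cfg K) (i : ℤ) : wt i * dist (x i) (y i) ≤ dist x y :=
  le_ciSup (bdd x y) i

lemma cfg_dist_le {x y : Cfg K} {c : ℝ} (h : ∀ i : ℤ, wt i * dist (x i) (y i) ≤ c) :
    dist x y ≤ c := by
  rw [cfg_dist]
  exact ciSup_le h

noncomputable instance : MetricSpace (Cfg K) where
  dist_self x := by
    rw [cfg_dist]
    simp
  dist_comm x y := by
    rw [cfg_dist, cfg_dist]
    congr 1
    funext i
    rw [dist_comm]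
  dist_triangle x y z := by
    refine cfg_dist_le fun i => ?_
    have h1 := term_le_dist x y i
    have h2 := term_le_dist y z i
    have h3 := dist_triangle (x i) (y i) (z i)
    have h4 := wt_pos i
    nlinarith
  eq_of_dist_eq_zero := by
    intro x y h
    funext i
    have h1 := term_le_dist x y i
    rw [h] at h1
    have h4 := wt_pos i
    have h5 : dist (x i) (y i) ≤ 0 := by
      by_contra h6
      push Not at h6
      have := mul_pos h4 h6
      linarith
    exact dist_le_zero.1 h5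

lemma coord_le_dist (x y : Cfg K) : dist (x 0) (y 0) ≤ dist x y := by
  have := term_le_dist x y 0
  rwa [wt_zero, one_mul] at this

lemma cfg_dist_le_one (x y : Cfg K) : dist x y ≤ 1 := cfg_dist_le (term_le_one x y)

/-- upper bound for the distance by finitely many coordinates -/
lemma cfg_dist_le_max {x y : Cfg K} {c : ℝ} (m : ℕ) (h : ∀ i : ℤ, i.natAbs ≤ m →
    dist (x i) (y i) ≤ c) : dist x y ≤ max c ((1 / 2 : ℝ) ^ (m + 1)) := by
  refine cfg_dist_le fun i => ?_
  by_cases hi : i.natAbs ≤ m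
  · refine le_trans ?_ (le_max_left _ _)
    have h1 := wt_le_one i
    have h3 : 0 ≤ dist (x i) (y i) := dist_nonneg
    have := h i hi
    have h4 := wt_pos i
    nlinarith
  · refine le_trans ?_ (le_max_right _ _)
    have h1 := wt_le i (m + 1) (by omega)
    have h2 := UnitDiam.le_one (x i) (y i)
    have h3 : 0 ≤ dist (x i) (y i) := dist_nonneg
    have h4 := wt_pos i
    nlinarith

/-- the shift by `n` -/
def sh (n : ℤ) (x : Cfg K) : Cfg K := fun i => x (i + n)

omit [MetricSpace K] [UnitDiam K] in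
lemma sh_apply (n : ℤ) (x : Cfg K) (i : ℤ) : sh n x i = x (i + n) := rfl

omit [MetricSpace K] [UnitDiam K] in
lemma sh_add (n m : ℤ) (x : Cfg K) : sh n (sh m x) = sh (n + m) x := by
  funext i
  show x (i + n + m) = x (i + (n + m))
  rw [add_assoc]

omit [MetricSpace K] [UnitDiam K] in
lemma sh_zero (x : Cfg K) : sh 0 x = x := by
  funext i
  show x (i + 0) = x i
  rw [add_zero]

lemma dist_sh_le (n : ℤ) (x y : Cfg K) : dist (sh n x) (sh n y) ≤ 2 ^ n.natAbs * dist x y := by
  refine cfg_dist_le fun i => ?_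
  have h1 := term_le_dist x y (i + n)
  have h2 : wt i ≤ 2 ^ n.natAbs * wt (i + n) := by
    unfold wt
    have h3 : (i + n).natAbs ≤ i.natAbs + n.natAbs := Int.natAbs_add_le i n
    have h4 : ((1 / 2 : ℝ)) ^ (i.natAbs + n.natAbs) ≤ (1 / 2 : ℝ) ^ (i + n).natAbs :=
      pow_le_pow_of_le_one (by norm_num) (by norm_num) h3
    have h5 : (2 : ℝ) ^ n.natAbs * (1 / 2 : ℝ) ^ (i.natAbs + n.natAbs) = (1 / 2 : ℝ) ^ i.natAbs := by
      rw [pow_add, mul_comm, mul_assoc, ← mul_pow]
      norm_num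
    rw [← h5]
    exact mul_le_mul_of_nonneg_left h4 (by positivity)
  rw [sh_apply, sh_apply]
  calc wt i * dist (x (i + n)) (y (i + n)) ≤ (2 ^ n.natAbs * wt (i + n)) * dist (x (i + n)) (y (i + n)) :=
        mul_le_mul_of_nonneg_right h2 dist_nonneg
    _ = 2 ^ n.natAbs * (wt (i + n) * dist (x (i + n)) (y (i + n))) := by ring
    _ ≤ _ := mul_le_mul_of_nonneg_left h1 (by positivity)

lemma continuous_sh (n : ℤ) : Continuous (sh n : Cfg K → Cfg K) := by
  refine (LipschitzWith.of_dist_le_mul (K := 2 ^ n.natAbs) ?_).continuous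
  intro x y
  simpa using dist_sh_le n x y

instance cfg_compact [CompactSpace K] : CompactSpace (Cfg K) := by
  let φ : (ℤ → K) → Cfg K := fun x => x
  have hφ : Continuous φ := by
    rw [continuous_iff_continuousAt]
    intro x
    rw [ContinuousAt, Metric.tendsto_nhds]
    intro ε hε
    obtain ⟨m, hm⟩ := exists_pow_lt_of_lt_one hε (by norm_num : (1 / 2 : ℝ) < 1)
    have h1 : ∀ᶠ y : ℤ → K in 𝓝 x, ∀ i ∈ Finset.Icc (-(m : ℤ)) m, dist (y i) (x i) < ε / 2 := by
      rw [Filter.eventually_all_finset]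
      intro i _
      have hc : Continuous fun y : ℤ → K => dist (y i) (x i) :=
        (continuous_apply i).dist continuous_const
      have := hc.tendsto x
      simp only [dist_self] at this
      exact this.eventually_lt_const (half_pos hε)
    filter_upwards [h1] with y hy
    have h2 : dist (φ y) (φ x) ≤ max (ε / 2) ((1 / 2 : ℝ) ^ (m + 1)) :=
      cfg_dist_le_max m fun i hi => (hy i (by rw [Finset.mem_Icc]; omega)).le
    refine lt_of_le_of_lt h2 (max_lt (half_lt_self hε) (lt_of_le_of_lt ?_ hm))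
    exact pow_le_pow_of_le_one (by norm_num) (by norm_num) (Nat.le_succ m)
  have hs : Set.range φ = Set.univ := by
    ext y
    simp only [Set.mem_range, Set.mem_univ, iff_true]
    exact ⟨y, rfl⟩
  refine ⟨?_⟩
  rw [← hs]
  exact isCompact_range hφ

/-- the orbit closure of `z` under all integer shifts -/
def orb (z : Cfg K) : Set (Cfg K) := closure (Set.range fun n : ℤ => sh n z)

lemma sh_mem_orb_z (z : Cfg K) (n : ℤ) : sh n z ∈ orb z := subset_closure ⟨n, rfl⟩

lemma sh_mem_orb {z x : Cfg K} (m : ℤ) (hx : x ∈ orb z) : sh m x ∈ orb z := by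
  have h := map_mem_closure (continuous_sh (K := K) m) hx
    (t := Set.range fun n : ℤ => sh n z) (by
      rintro _ ⟨n, rfl⟩
      exact ⟨m + n, (sh_add m n z).symm⟩)
  exact h

/-- the subsystem -/
abbrev Sys (z : Cfg K) : Type := {x : Cfg K // x ∈ orb z}

instance sys_compact [CompactSpace K] (z : Cfg K) : CompactSpace (Sys z) :=
  isCompact_iff_compactSpace.1 isClosed_closure.isCompact

/-- the shift homeomorphism of the whole space -/
noncomputable def shHomeo (K : Type) [MetricSpace K] [UnitDiam K] : Cfg K ≃ₜ Cfg K where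
  toFun := sh 1
  invFun := sh (-1)
  left_inv x := by rw [sh_add]; exact sh_zero x
  right_inv x := by rw [sh_add]; exact sh_zero x
  continuous_toFun := continuous_sh 1
  continuous_invFun := continuous_sh (-1)

/-- the homeomorphism of the subsystem -/
noncomputable def sysHomeo (z : Cfg K) : Sys z ≃ₜ Sys z :=
  (shHomeo K).subtype (by
    intro x
    constructor
    · intro hx
      exact sh_mem_orb 1 hx
    · intro hx
      have := sh_mem_orb (-1) hx
      have h2 : sh (-1) (shHomeo K x) = x := (shHomeo K).left_inv x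
      rwa [h2] at this)

lemma sysHomeo_coe (z : Cfg K) (x : Sys z) : (sysHomeo z x : Cfg K) = sh 1 x.1 := rfl

lemma sysHomeo_iter (z : Cfg K) (x : Sys z) (t : ℕ) :
    (((sysHomeo z)^[t] x : Sys z) : Cfg K) = sh t x.1 := by
  induction t with
  | zero => simp [sh_zero]
  | succ t ih =>
    rw [Function.iterate_succ_apply', sysHomeo_coe, ih, sh_add]
    congr 1
    push_cast
    ring

/-- the point `σ^n z` of the system -/
def pt (z : Cfg K) (n : ℤ) : Sys z := ⟨sh n z, sh_mem_orb_z z n⟩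

lemma dist_iter (z : Cfg K) (x y : Sys z) (t : ℕ) :
    dist ((sysHomeo z)^[t] x) ((sysHomeo z)^[t] y) = dist (sh t x.1) (sh t y.1) := by
  rw [Subtype.dist_eq, sysHomeo_iter, sysHomeo_iter]

/-- coordinates in the window bound the Bowen distance from below -/
lemma coord_le_iter (z : Cfg K) (x y : Sys z) (t : ℕ) :
    dist (x.1 t) (y.1 t) ≤ dist ((sysHomeo z)^[t] x) ((sysHomeo z)^[t] y) := by
  rw [dist_iter]
  have := coord_le_dist (sh t x.1) (sh t y.1)
  rwa [sh_apply, sh_apply, zero_add] at this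

/-- if all coordinates in `[-m, T+m)` are `c`-close then all iterates before `T` are close -/
lemma iter_le (z : Cfg K) (x y : Sys z) {c : ℝ} (T m : ℕ)
    (h : ∀ i : ℤ, -(m : ℤ) ≤ i → i < T + m → dist (x.1 i) (y.1 i) ≤ c) (t : ℕ) (ht : t < T) :
    dist ((sysHomeo z)^[t] x) ((sysHomeo z)^[t] y) ≤ max c ((1 / 2 : ℝ) ^ (m + 1)) := by
  rw [dist_iter]
  refine cfg_dist_le_max m fun i hi => ?_
  rw [sh_apply, sh_apply]
  exact h _ (by omega) (by omega)

/-- every point is approximated on every finite window by orbit points of `z` -/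
lemma approx (z : Cfg K) (x : Sys z) (a b : ℤ) {η : ℝ} (hη : 0 < η) :
    ∃ n : ℤ, ∀ i : ℤ, a ≤ i → i < b → dist (x.1 i) (z (i + n)) ≤ η := by
  obtain ⟨x, hx⟩ := x
  have hx' := hx
  unfold orb at hx'
  rw [Metric.mem_closure_iff] at hx'
  let m := a.natAbs + b.natAbs
  have hpos : 0 < η * (1 / 2 : ℝ) ^ m := by positivity
  obtain ⟨_, ⟨n, rfl⟩, hn⟩ := hx' _ hpos
  refine ⟨n, fun i hi1 hi2 => ?_⟩
  have h1 := term_le_dist x (sh n z) i
  rw [sh_apply] at h1
  have h2 : (1 / 2 : ℝ) ^ m ≤ wt i := by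
    unfold wt
    exact pow_le_pow_of_le_one (by norm_num) (by norm_num) (by omega)
  have h3 : 0 ≤ dist (x i) (z (i + n)) := dist_nonneg
  have h4 : (1 / 2 : ℝ) ^ m * dist (x i) (z (i + n)) ≤ η * (1 / 2 : ℝ) ^ m :=
    (mul_le_mul_of_nonneg_right h2 h3).trans (h1.trans hn.le)
  have h5 : 0 < (1 / 2 : ℝ) ^ m := by positivity
  by_contra h6
  push Not at h6
  nlinarith

/-- transitivity from recurrence of `z` -/
lemma transitive_of_recurrent (z : Cfg K)
    (h : ∀ N : ℕ, ∃ s : ℤ, (N : ℤ) ≤ s ∧ ∀ i : ℤ, -(N : ℤ) ≤ i → i ≤ N → z (i + s) = z i) :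
    Transitive (sysHomeo z) := by
  refine ⟨pt z 0, ?_⟩
  rw [Metric.dense_iff]
  rintro ⟨x, hx⟩ ε hε
  have hx' := hx
  unfold orb at hx'
  rw [Metric.mem_closure_iff] at hx'
  obtain ⟨_, ⟨n, rfl⟩, hn⟩ := hx' (ε / 2) (half_pos hε)
  obtain ⟨m, hm⟩ := exists_pow_lt_of_lt_one (half_pos hε) (by norm_num : (1 / 2 : ℝ) < 1)
  obtain ⟨s, hs, hs2⟩ := h (m + n.natAbs)
  have h0 : 0 ≤ n + s := by omega
  refine ⟨pt z (n + s), ?_, (n + s).toNat, ?_⟩
  · rw [Metric.mem_ball, Subtype.dist_eq]
    show dist (sh (n + s) z) x < ε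
    have h1 : dist (sh (n + s) z) (sh n z) ≤ max 0 ((1 / 2 : ℝ) ^ (m + 1)) := by
      refine cfg_dist_le_max m fun i hi => ?_
      rw [sh_apply, sh_apply]
      have h2 := hs2 (i + n) (by omega) (by omega)
      rw [← h2, show i + (n + s) = i + n + s by ring, dist_self]
    have h3 : (1 / 2 : ℝ) ^ (m + 1) < ε / 2 :=
      lt_of_le_of_lt (pow_le_pow_of_le_one (by norm_num) (by norm_num) (Nat.le_succ m)) hm
    have h4 : dist (sh (n + s) z) (sh n z) < ε / 2 :=
      lt_of_le_of_lt h1 (max_lt (half_pos hε) h3)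
    have h5 := dist_triangle (sh (n + s) z) (sh n z) x
    rw [dist_comm (sh n z) x] at h5
    linarith
  · apply Subtype.ext
    rw [sysHomeo_iter]
    show sh _ (sh 0 z) = sh (n + s) z
    rw [sh_zero, Int.toNat_of_nonneg h0]

end Pool.Agent.R729.Weiss
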