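import Mathlib
import Pool.Agent.R729.Weiss.Shift
import Pool.Agent.R729.Weiss.Seq

/-!
# Generic upper bounds for separated and spanning numbers of orbit closures
-/

namespace Pool.Agent.R729.Weiss

open Filter Topology

variable {K : Type} [MetricSpace K] [UnitDiam K]

lemma sep_card_le (z : Cfg K) {δ : ℝ} (hδ : 0 < δ) (T m : ℕ) (hm : (1 / 2 : ℝ) ^ (m + 1) < δ)
    {P : Type} (Q : Finset P) (w : P → ℤ → K)
    (hw : ∀ n : ℤ, ∃ p ∈ Q, ∀ i : ℤ, -(m : ℤ) ≤ i → i < T + m →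
      dist (z (i + n)) (w p i) ≤ δ / 8)
    (S : Finset (Sys z)) (hS : IsSep (sysHomeo z) δ T S) : S.card ≤ Q.card := by
  have h1 : ∀ x : Sys z, ∃ p ∈ Q, ∀ i : ℤ, -(m : ℤ) ≤ i → i < T + m →
      dist (x.1 i) (w p i) ≤ δ / 4 := by
    intro x
    obtain ⟨n, hn⟩ := approx z x (-(m : ℤ)) (T + m) (show 0 < δ / 8 by positivity)
    obtain ⟨p, hp, hpw⟩ := hw n
    refine ⟨p, hp, fun i hi1 hi2 => ?_⟩
    have h2 := hn i hi1 hi2
    have h3 := hpw i hi1 hi2
    have h4 := dist_triangle (x.1 i) (z (i + n)) (w p i)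
    linarith
  choose f hf hfw using h1
  refine Finset.card_le_card_of_injOn f (fun x _ => hf x) ?_
  intro x hx y hy hxy
  by_contra hne
  have h2 := hS x hx y hy hne
  have h3 : bowenDist (sysHomeo z) T x y < δ := by
    rw [bowen_lt hδ]
    intro t ht
    have h4 := iter_le z x y (c := δ / 2) T m (by
      intro i hi1 hi2
      have h5 := hfw x i hi1 hi2
      have h6 := hfw y i hi1 hi2
      rw [← hxy] at h6
      have h7 := dist_triangle (x.1 i) (w (f x) i) (y.1 i)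
      rw [dist_comm (w (f x) i)] at h7
      linarith) t ht
    exact lt_of_le_of_lt h4 (max_lt (half_lt_self hδ) hm)
  linarith

lemma span_card_le (z : Cfg K) {ε : ℝ} (hε : 1 / 2 < ε) (T : ℕ) {η : ℝ} (hη : 0 < η)
    (C : Finset ℤ)
    (hC : ∀ n : ℤ, ∃ c ∈ C, ∀ i : ℤ, 0 ≤ i → i < T →
      dist (z (i + c)) (z (i + n)) ≤ ε - η) :
    spanNum (sysHomeo z) ε T ≤ C.card := by
  classical
  have h0 : IsSpan (sysHomeo z) ε T (C.image (pt z)) := by
    intro x
    obtain ⟨n, hn⟩ := approx z x 0 T (half_pos hη)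
    obtain ⟨c, hc, hcw⟩ := hC n
    refine ⟨pt z c, Finset.mem_image_of_mem _ hc, ?_⟩
    rw [bowen_lt (by linarith)]
    intro t ht
    have h4 := iter_le z (pt z c) x (c := ε - η / 2) T 0 (by
      intro i hi1 hi2
      have h5 := hcw i (by simpa using hi1) (by simpa using hi2)
      have h6 := hn i (by simpa using hi1) (by simpa using hi2)
      have h7 := dist_triangle (z (i + c)) (z (i + n)) (x.1 i)
      rw [dist_comm (z (i + n))] at h7
      show dist (z (i + c)) (x.1 i) ≤ _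
      linarith) t ht
    refine lt_of_le_of_lt h4 (max_lt (by linarith) (by norm_num; linarith))
  exact (spanNum_le h0).trans Finset.card_image_le

/-- choosing representatives of words -/
lemma exists_reps {α : Type} (x : ℤ → α) (T : ℕ) {P : Type} (Q : Finset P) (w : P → ℤ → α) :
    ∃ C : Finset ℤ, C.card ≤ Q.card ∧
      ∀ n : ℤ, ∀ p ∈ Q, (∀ t : ℤ, 0 ≤ t → t < T → x (n + t) = w p t) →
        ∃ c ∈ C, ∀ t : ℤ, 0 ≤ t → t < T → x (c + t) = x (n + t) := by
  classical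
  let g : P → ℤ := fun p =>
    if h : ∃ n : ℤ, ∀ t : ℤ, 0 ≤ t → t < T → x (n + t) = w p t then h.choose else 0
  refine ⟨Q.image g, Finset.card_image_le, ?_⟩
  intro n p hp hn
  refine ⟨g p, Finset.mem_image_of_mem _ hp, ?_⟩
  have h : ∃ n : ℤ, ∀ t : ℤ, 0 ≤ t → t < T → x (n + t) = w p t := ⟨n, hn⟩
  have h1 : g p = h.choose := dif_pos h
  intro t ht1 ht2
  rw [h1, h.choose_spec t ht1 ht2, hn t ht1 ht2]

end Pool.Agent.R729.Weiss
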