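import Mathlib
import Pool.Agent.R729.Weiss.Gen

/-!
# The letters and blocks of the example
-/

namespace Pool.Agent.R729.Weiss

open Filter Topology

/-- unit interval -/
abbrev UI := Set.Icc (0 : ℝ) 1

/-- the alphabet is embedded in the unit cube with the maximum metric -/
abbrev Cube := UI × UI × UI

lemma ui_dist_le (x y : UI) : dist x y ≤ 1 := by
  rw [Subtype.dist_eq, Real.dist_eq, abs_le]
  have h1 := x.2.1
  have h2 := x.2.2
  have h3 := y.2.1
  have h4 := y.2.2
  constructor <;> linarith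

instance : UnitDiam Cube := ⟨fun x y => by
  rw [Prod.dist_eq, Prod.dist_eq]
  exact max_le (ui_dist_le _ _) (max_le (ui_dist_le _ _) (ui_dist_le _ _))⟩

lemma cube_dist (x y : Cube) : dist x y =
    max |(x.1 : ℝ) - y.1| (max |(x.2.1 : ℝ) - y.2.1| |(x.2.2 : ℝ) - y.2.2|) := by
  rw [Prod.dist_eq, Prod.dist_eq, Subtype.dist_eq, Subtype.dist_eq, Subtype.dist_eq,
    Real.dist_eq, Real.dist_eq, Real.dist_eq]

/-- letters -/
inductive Lt where
  | hash : Lt
  | bit (k : ℕ) (c : Bool) : Lt
  | star (k : ℕ) : Lt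
deriving DecidableEq

/-- powers of one half -/
noncomputable def hf (k : ℕ) : ℝ := (1 / 2 : ℝ) ^ k

lemma hf_pos (k : ℕ) : 0 < hf k := by unfold hf; positivity

lemma hf_le_one (k : ℕ) : hf k ≤ 1 := by
  unfold hf
  exact pow_le_one₀ (by norm_num) (by norm_num)

lemma hf_anti {j k : ℕ} (h : j ≤ k) : hf k ≤ hf j := by
  unfold hf
  exact pow_le_pow_of_le_one (by norm_num) (by norm_num) h

lemma hf_lt {j k : ℕ} (h : j < k) : hf k ≤ hf j / 2 := by
  have h1 := hf_anti (Nat.succ_le_of_lt h)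
  have h2 : hf (j + 1) = hf j / 2 := by unfold hf; rw [pow_succ]; ring
  rw [← h2]
  exact h1

/-- first coordinate of a bit -/
def bcoord (c : Bool) : UI := if c then ⟨1, by norm_num⟩ else ⟨0, by norm_num⟩

/-- second coordinate of a bit of class `k` -/
noncomputable def acoord (k : ℕ) : UI := ⟨(1 - hf k) / 8, by
  have := hf_pos k; have := hf_le_one k; constructor <;> linarith⟩

/-- second coordinate of a star of class `k` -/
noncomputable def scoord (k : ℕ) : UI := ⟨7 / 8 - 3 / 16 * hf k, by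
  have := hf_pos k; have := hf_le_one k; constructor <;> linarith⟩

/-- one half -/
noncomputable def uhalf : UI := ⟨1 / 2, by norm_num⟩

/-- the embedding of the letters in the cube -/
noncomputable def emb : Lt → Cube
  | .hash => (uhalf, ⟨0, by norm_num⟩, ⟨1, by norm_num⟩)
  | .bit k c => (bcoord c, acoord k, ⟨0, by norm_num⟩)
  | .star k => (uhalf, scoord k, ⟨0, by norm_num⟩)

lemma d_hash_bit (k : ℕ) (c : Bool) : 3 / 4 ≤ dist (emb .hash) (emb (.bit k c)) := by
  rw [cube_dist]
  refine le_trans ?_ ((le_max_right _ _).trans (le_max_right _ _))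
  simp only [emb]
  norm_num

lemma d_bit_bit_ne (j k : ℕ) {c c' : Bool} (h : c ≠ c') :
    1 ≤ dist (emb (.bit j c)) (emb (.bit k c')) := by
  rw [cube_dist]
  refine le_trans ?_ (le_max_left _ _)
  simp only [emb]
  cases c <;> cases c' <;> simp_all [bcoord]

lemma d_bit_bit (j k : ℕ) (c : Bool) :
    dist (emb (.bit j c)) (emb (.bit k c)) ≤ 1 / 8 * |hf j - hf k| := by
  rw [cube_dist]
  simp only [emb, acoord]
  refine max_le ?_ (max_le ?_ ?_)
  · simp
  · rw [show (1 - hf j) / 8 - (1 - hf k) / 8 = (1 / 8) * (-(hf j - hf k)) by ring, abs_mul, abs_neg]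
    norm_num
  · simp

lemma d_star_star (j k : ℕ) :
    dist (emb (.star j)) (emb (.star k)) ≤ 3 / 16 * |hf j - hf k| := by
  rw [cube_dist]
  simp only [emb, scoord]
  refine max_le ?_ (max_le ?_ ?_)
  · simp
  · rw [show 7 / 8 - 3 / 16 * hf j - (7 / 8 - 3 / 16 * hf k) = (3 / 16) * (-(hf j - hf k)) by ring,
      abs_mul, abs_neg]
    norm_num
  · simp

lemma d_star_bit_le {j k : ℕ} (h : j ≤ k) (c : Bool) :
    dist (emb (.star j)) (emb (.bit k c)) ≤ 3 / 4 - 1 / 16 * hf j := by
  have h1 := hf_pos j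
  have h2 := hf_le_one j
  have h3 := hf_pos k
  have h4 := hf_anti h
  rw [cube_dist]
  simp only [emb, scoord, acoord, uhalf]
  refine max_le ?_ (max_le ?_ ?_)
  · cases c
    · show |(1 / 2 : ℝ) - 0| ≤ _
      rw [abs_le]
      constructor <;> linarith
    · show |(1 / 2 : ℝ) - 1| ≤ _
      rw [abs_le]
      constructor <;> linarith
  · rw [abs_le]
    constructor <;> linarith
  · simp
    linarith

lemma d_star_bit_ge {j k : ℕ} (h : k < j) (c : Bool) :
    3 / 4 ≤ dist (emb (.star j)) (emb (.bit k c)) := by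
  have h4 := hf_lt h
  have h3 := hf_pos k
  rw [cube_dist]
  refine le_trans ?_ ((le_max_left _ _).trans (le_max_right _ _))
  simp only [emb, scoord, acoord]
  refine le_trans ?_ (le_abs_self _)
  linarith

/-- letters of a block of class `k` with content `o` -/
def letter (k : ℕ) (o : Option (Finset ℕ)) (i : ℕ) : Lt :=
  match o with
  | none => .star k
  | some s => .bit k (decide (i ∈ s))

lemma letter_ne_hash (k : ℕ) (o : Option (Finset ℕ)) (i : ℕ) : letter k o i ≠ .hash := by
  cases o <;> simp [letter]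

/-- block length -/
def blen (B : ℕ × Option (Finset ℕ)) : ℕ :=
  match B.2 with
  | none => 4 ^ B.1
  | some _ => 4 ^ B.1 + 1

/-- padded blocks -/
def Wb (B : ℕ × Option (Finset ℕ)) (i : ℤ) : Lt :=
  if 0 ≤ i ∧ i < blen B then letter B.1 B.2 i.toNat else .hash

lemma Wb_pad (B : ℕ × Option (Finset ℕ)) (i : ℤ) (h : i < 0 ∨ (blen B : ℤ) ≤ i) :
    Wb B i = .hash := by
  unfold Wb
  rw [if_neg]
  omega

lemma Wb_in (B : ℕ × Option (Finset ℕ)) (i : ℤ) (h1 : 0 ≤ i) (h2 : i < blen B) :
    Wb B i = letter B.1 B.2 i.toNat := by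
  unfold Wb
  rw [if_pos ⟨h1, h2⟩]

lemma le_blen (B : ℕ × Option (Finset ℕ)) : 4 ^ B.1 ≤ blen B := by
  obtain ⟨k, o⟩ := B
  cases o <;> simp [blen]

lemma blen_le (B : ℕ × Option (Finset ℕ)) : blen B ≤ 4 ^ B.1 + 1 := by
  obtain ⟨k, o⟩ := B
  cases o <;> simp [blen]

/-- an enumeration of the blocks -/
noncomputable def en : ℕ → ℕ × Option (Finset ℕ) :=
  (exists_surjective_nat (ℕ × Option (Finset ℕ))).choose

lemma en_surj : Function.Surjective en :=
  (exists_surjective_nat (ℕ × Option (Finset ℕ))).choose_spec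

/-- lengths of the enumerated blocks -/
noncomputable def bl (j : ℕ) : ℕ := blen (en j)

/-- the letters of the transitive point -/
noncomputable def xs (i : ℤ) : Lt := x0 Lt.hash (fun j => Wb (en j)) bl i

lemma hWb : ∀ j (i : ℤ), (i < 0 ∨ (bl j : ℤ) ≤ i) → (fun j => Wb (en j)) j i = Lt.hash :=
  fun j i h => Wb_pad (en j) i h

/-- the transitive point -/
noncomputable def Z0 : Cfg Cube := fun i => emb (xs i)

/-- the system -/
abbrev XX : Type := Sys Z0

/-- the homeomorphism -/
noncomputable def FF : XX ≃ₜ XX := sysHomeo Z0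

lemma transitive_FF : Transitive FF := by
  refine transitive_of_recurrent Z0 fun N => ?_
  have h1 := succ_le_LL bl (N + 1)
  have h2 := le_nn bl (N + 1)
  refine ⟨nn bl (N + 1) + 2 * LL bl (N + 1) + bl (N + 1), by omega, fun i hi1 hi2 => ?_⟩
  show emb (xs _) = emb (xs i)
  congr 1
  exact x0_rec Lt.hash (fun j => Wb (en j)) bl hWb (N + 1) i (by omega) (by omega)

/-- every block occurs -/
lemma xs_block (B : ℕ × Option (Finset ℕ)) : ∃ n : ℤ, ∀ i : ℤ, -(blen B : ℤ) ≤ i →
    i < 2 * blen B → xs (n + i) = Wb B i := by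
  obtain ⟨j, hj⟩ := en_surj B
  refine ⟨nn bl j + LL bl j, fun i h1 h2 => ?_⟩
  have h3 := b_le_LL bl j
  have h4 : bl j = blen B := by unfold bl; rw [hj]
  have := x0_block Lt.hash (fun j => Wb (en j)) bl hWb j i (by omega) (by omega)
  rw [hj] at this
  exact this

end Pool.Agent.R729.Weiss
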