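import Mathlib
import Pool.Agent.R729.Weiss.Letters

/-!
# Separated numbers of the example
-/

namespace Pool.Agent.R729.Weiss

open Filter Topology

/-- contents restricted to `range T` -/
def optset (T : ℕ) : Finset (Option (Finset ℕ)) := Finset.insertNone (Finset.range T).powerset

lemma card_optset (T : ℕ) : (optset T).card = 2 ^ T + 1 := by
  unfold optset
  rw [Finset.card_insertNone, Finset.card_powerset, Finset.card_range]

/-- content seen from a shifted position -/
def cut (i' : ℤ) (T : ℕ) (o : Option (Finset ℕ)) : Option (Finset ℕ) :=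
  o.map fun s => (Finset.range T).filter fun t : ℕ => (i' + (t : ℤ)).toNat ∈ s

lemma cut_mem (i' : ℤ) (T : ℕ) (o : Option (Finset ℕ)) : cut i' T o ∈ optset T := by
  unfold optset cut
  cases o with
  | none => simp
  | some s => simp

lemma letter_close (k Kc : ℕ) (o : Option (Finset ℕ)) (i' : ℤ) (T : ℕ) (t : ℤ) (h1 : 0 ≤ t)
    (h2 : t < T) :
    dist (emb (letter k o (i' + t).toNat)) (emb (letter (min k Kc) (cut i' T o) t.toNat)) ≤
      3 / 16 * hf Kc := by
  have h3 : |hf k - hf (min k Kc)| ≤ hf Kc := by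
    rcases le_total k Kc with h | h
    · rw [min_eq_left h, sub_self, abs_zero]
      exact (hf_pos _).le
    · rw [min_eq_right h, abs_le]
      have := hf_anti h
      have := hf_pos k
      have := hf_pos Kc
      constructor <;> linarith
  have h5 := hf_pos Kc
  cases o with
  | none =>
    refine (d_star_star _ _).trans ?_
    linarith
  | some s =>
    have h4 : (decide (t.toNat ∈ (Finset.range T).filter fun t : ℕ => (i' + (t : ℤ)).toNat ∈ s)) =
        decide ((i' + t).toNat ∈ s) := by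
      have h6 : ((t.toNat : ℕ) : ℤ) = t := Int.toNat_of_nonneg h1
      have h7 : t.toNat < T := by omega
      simp only [Finset.mem_filter, Finset.mem_range, h6, h7, true_and]
    show dist (emb (.bit k (decide ((i' + t).toNat ∈ s)))) (emb (.bit (min k Kc)
      (decide (t.toNat ∈ (Finset.range T).filter fun t : ℕ => (i' + (t : ℤ)).toNat ∈ s)))) ≤ _
    rw [h4]
    refine (d_bit_bit _ _ _).trans ?_
    linarith

/-- word data for separated sets -/
lemma sep_data (T m Kc : ℕ) : ∃ (P : Type) (Q : Finset P) (w : P → ℤ → Cube),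
    Q.card ≤ (6 * (T + 2 * m) + 1) +
      (T + 2 * m + 1) * ((T + 2 * m + 1) * ((Kc + 1) * (2 ^ (T + 2 * m) + 1))) ∧
    ∀ n : ℤ, ∃ p ∈ Q, ∀ i : ℤ, -(m : ℤ) ≤ i → i < T + m →
      dist (Z0 (i + n)) (w p i) ≤ 3 / 16 * hf Kc := by
  obtain ⟨j0, hj1, hj2⟩ := exists_level bl (T + 2 * m)
  refine ⟨ℤ ⊕ (ℕ × ℕ × ℕ × Option (Finset ℕ)),
    (Finset.Icc (-((T + 2 * m : ℕ) : ℤ)) (nn bl j0)).disjSum
      (Finset.range (T + 2 * m + 1) ×ˢ Finset.range (T + 2 * m + 1) ×ˢ Finset.range (Kc + 1) ×ˢ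
        optset (T + 2 * m)),
    fun p i => match p with
      | .inl i' => emb (qq Lt.hash (fun j => Wb (en j)) bl j0 (i' + (i + m)))
      | .inr q => if (q.1 : ℤ) ≤ i + m ∧ i + m < q.2.1 then
          emb (letter q.2.2.1 q.2.2.2 (i + m).toNat) else emb .hash, ?_, ?_⟩
  · rw [Finset.card_disjSum, Finset.card_product, Finset.card_product, Finset.card_product,
      Finset.card_range, Finset.card_range, card_optset, Int.card_Icc]
    have : ((nn bl j0 : ℤ) + 1 - -((T + 2 * m : ℕ) : ℤ)).toNat ≤ 6 * (T + 2 * m) + 1 := by omega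
    exact Nat.add_le_add_right this _
  · intro n
    have h5 := hf_pos Kc
    rcases x0_window Lt.hash (fun j => Wb (en j)) bl hWb (T + 2 * m) j0 hj1 (n - m) with
      ⟨i', ha, hb, hw⟩ | ⟨l, _, i', hw⟩
    · refine ⟨.inl i', ?_, fun i hi1 hi2 => ?_⟩
      · rw [Finset.inl_mem_disjSum, Finset.mem_Icc]
        exact ⟨ha, hb⟩
      · have h1 := hw (i + m) (by omega) (by omega)
        have h2 : Z0 (i + n) = emb (qq Lt.hash (fun j => Wb (en j)) bl j0 (i' + (i + m))) := by
          show emb (xs (i + n)) = _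
          rw [← h1]
          show emb (xs (i + n)) = emb (xs _)
          congr 2
          ring
        show dist (Z0 (i + n)) (emb (qq Lt.hash (fun j => Wb (en j)) bl j0 (i' + (i + m)))) ≤ _
        rw [h2, dist_self]
        linarith
    · rcases hB : en l with ⟨k, o⟩
      set A : ℕ := (min (max 0 (-i')) (T + 2 * m : ℕ)).toNat with hA
      set D : ℕ := (min (max 0 (blen (k, o) - i')) (T + 2 * m : ℕ)).toNat with hD
      refine ⟨.inr (A, D, min k Kc, cut i' (T + 2 * m) o), ?_, fun i hi1 hi2 => ?_⟩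
      · rw [Finset.inr_mem_disjSum, Finset.mem_product, Finset.mem_product, Finset.mem_product,
          Finset.mem_range, Finset.mem_range, Finset.mem_range]
        refine ⟨?_, ?_, ?_, cut_mem _ _ _⟩
        · show A < _
          omega
        · show D < _
          omega
        · show min k Kc < _
          omega
      · have h1 := hw (i + m) (by omega) (by omega)
        have h2 : Z0 (i + n) = emb (Wb (k, o) (i' + (i + m))) := by
          have h3 : xs (i + n) = Wb (en l) (i' + (i + m)) := by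
            rw [← h1]
            show xs (i + n) = xs _
            congr 1
            ring
          show emb (xs (i + n)) = _
          rw [h3, hB]
        rw [h2]
        show dist _ (if (A : ℤ) ≤ i + m ∧ i + m < D then
          emb (letter (min k Kc) (cut i' (T + 2 * m) o) (i + m).toNat) else emb .hash) ≤ _
        by_cases hin : 0 ≤ i' + (i + m) ∧ i' + (i + m) < blen (k, o)
        · rw [if_pos (by omega), Wb_in _ _ hin.1 hin.2]
          exact letter_close k Kc o i' (T + 2 * m) (i + m) (by omega) (by omega)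
        · rw [if_neg (by omega), Wb_pad _ _ (by omega), dist_self]
          linarith

lemma sep_upper {δ : ℝ} (hδ : 0 < δ) : ∃ C : ℕ, 0 < C ∧ ∀ T : ℕ, 1 ≤ T → ∀ S : Finset XX,
    IsSep FF δ T S → S.card ≤ C * T ^ 2 * 2 ^ T := by
  obtain ⟨m, hm⟩ := exists_pow_lt_of_lt_one hδ (by norm_num : (1 / 2 : ℝ) < 1)
  obtain ⟨Kc, hK⟩ := exists_pow_lt_of_lt_one (show 0 < δ / 8 by positivity)
    (by norm_num : (1 / 2 : ℝ) < 1)
  refine ⟨(2 * m + 2) ^ 2 * 2 ^ (2 * m) * (2 * Kc + 8), by positivity, fun T hT S hS => ?_⟩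
  obtain ⟨P, Q, w, hQ, hw⟩ := sep_data T m Kc
  have h1 : (1 / 2 : ℝ) ^ (m + 1) < δ :=
    lt_of_le_of_lt (pow_le_pow_of_le_one (by norm_num) (by norm_num) (Nat.le_succ m)) hm
  have h2 := sep_card_le Z0 hδ T m h1 Q w (fun n => by
    obtain ⟨p, hp, hpw⟩ := hw n
    refine ⟨p, hp, fun i hi1 hi2 => (hpw i hi1 hi2).trans ?_⟩
    have h3 : hf Kc < δ / 8 := hK
    have := hf_pos Kc
    linarith) S hS
  refine h2.trans (hQ.trans ?_)
  have hM : T + 2 * m + 1 ≤ (2 * m + 2) * T := by nlinarith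
  have h3 : 1 ≤ 2 ^ (T + 2 * m) := Nat.one_le_two_pow
  have h4 : 2 ^ (T + 2 * m) = 2 ^ T * 2 ^ (2 * m) := pow_add _ _ _
  calc (6 * (T + 2 * m) + 1) +
      (T + 2 * m + 1) * ((T + 2 * m + 1) * ((Kc + 1) * (2 ^ (T + 2 * m) + 1)))
      ≤ (T + 2 * m + 1) ^ 2 * 2 ^ (T + 2 * m) * 6 +
        (T + 2 * m + 1) ^ 2 * 2 ^ (T + 2 * m) * (2 * (Kc + 1)) := by
        apply Nat.add_le_add
        · nlinarith [Nat.mul_le_mul (Nat.le_refl ((T + 2 * m + 1) ^ 2)) h3]
        · have : (T + 2 * m + 1) * ((T + 2 * m + 1) * ((Kc + 1) * (2 ^ (T + 2 * m) + 1))) =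
              (T + 2 * m + 1) ^ 2 * (Kc + 1) * (2 ^ (T + 2 * m) + 1) := by ring
          rw [this]
          have : (T + 2 * m + 1) ^ 2 * 2 ^ (T + 2 * m) * (2 * (Kc + 1)) =
              (T + 2 * m + 1) ^ 2 * (Kc + 1) * (2 * 2 ^ (T + 2 * m)) := by ring
          rw [this]
          apply Nat.mul_le_mul_left
          omega
    _ = (T + 2 * m + 1) ^ 2 * 2 ^ (T + 2 * m) * (2 * Kc + 8) := by ring
    _ ≤ ((2 * m + 2) * T) ^ 2 * 2 ^ (T + 2 * m) * (2 * Kc + 8) := by gcongr
    _ = _ := by rw [h4]; ring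

lemma sep_lower {δ : ℝ} (hδ : 0 < δ) (hδ1 : δ ≤ 1) (T : ℕ) (hT : 1 ≤ T) :
    2 ^ T ≤ sepNum FF δ T := by
  classical
  obtain ⟨C, _, hC⟩ := sep_upper hδ
  have hb : ∀ s : Finset ℕ, ∃ n : ℤ, ∀ i : ℤ, 0 ≤ i → i < T →
      xs (n + i) = .bit T (decide (i.toNat ∈ s)) := by
    intro s
    obtain ⟨n, hn⟩ := xs_block (T, some s)
    refine ⟨n, fun i h1 h2 => ?_⟩
    have h3 : T < 4 ^ T := Nat.lt_pow_self (by norm_num)
    have h4 : blen (T, some s) = 4 ^ T + 1 := rfl
    rw [hn i (by omega) (by omega), Wb_in _ _ h1 (by omega)]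
    rfl
  choose g hg using hb
  have hd : ∀ s ∈ (Finset.range T).powerset, ∀ s' ∈ (Finset.range T).powerset, s ≠ s' →
      ∃ t < T, 1 ≤ dist (Z0 (t + g s)) (Z0 (t + g s')) := by
    intro s hs s' hs' hne
    rw [Finset.mem_powerset] at hs hs'
    have h1 : ∃ t, ¬ (t ∈ s ↔ t ∈ s') := by
      by_contra h
      push Not at h
      exact hne (Finset.ext h)
    obtain ⟨t, ht⟩ := h1
    have htT : t < T := by
      by_cases h2 : t ∈ s
      · exact Finset.mem_range.1 (hs h2)
      · have h3 : t ∈ s' := by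
          by_contra h3
          exact ht ⟨fun h => absurd h h2, fun h => absurd h h3⟩
        exact Finset.mem_range.1 (hs' h3)
    refine ⟨t, htT, ?_⟩
    have h3 := hg s t (by omega) (by omega)
    have h4 := hg s' t (by omega) (by omega)
    show 1 ≤ dist (emb (xs (t + g s))) (emb (xs (t + g s')))
    rw [add_comm (t : ℤ) (g s), add_comm (t : ℤ) (g s'), h3, h4]
    apply d_bit_bit_ne
    rw [Int.toNat_natCast]
    intro h5
    exact ht (by simpa using h5)
  have hinj : Set.InjOn (fun s => pt Z0 (g s)) ((Finset.range T).powerset : Set (Finset ℕ)) := by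
    intro s hs s' hs' h
    by_contra hne
    obtain ⟨t, _, ht2⟩ := hd s hs s' hs' hne
    have h1 : sh (g s) Z0 = sh (g s') Z0 := congrArg Subtype.val h
    have h2 : Z0 (t + g s) = Z0 (t + g s') := congrFun h1 t
    rw [h2, dist_self] at ht2
    linarith
  have hS : IsSep FF δ T ((Finset.range T).powerset.image fun s => pt Z0 (g s)) := by
    intro x hx y hy hxy
    rw [Finset.mem_image] at hx hy
    obtain ⟨s, hs, rfl⟩ := hx
    obtain ⟨s', hs', rfl⟩ := hy
    obtain ⟨t, ht1, ht2⟩ := hd s hs s' hs' (fun h => hxy (by rw [h]))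
    refine le_bowen ht1 ?_
    refine (hδ1.trans ht2).trans ?_
    exact coord_le_iter Z0 (pt Z0 (g s)) (pt Z0 (g s')) t
  have h1 := le_sepNum (fun S hS => hC T hT S hS) hS
  rwa [Finset.card_image_of_injOn hinj, Finset.card_powerset, Finset.card_range] at h1

end Pool.Agent.R729.Weiss
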