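import Mathlib
import Pool.Agent.R729.Weiss.SepQ2

/-!
# Spanning numbers of the example
-/

namespace Pool.Agent.R729.Weiss

open Filter Topology

lemma pow_big (s : ℕ) (hs : 16 ≤ s) : 28 * s ^ 2 ≤ 2 ^ s := by
  induction s, hs using Nat.le_induction with
  | base => norm_num
  | succ n hn ih =>
    rw [pow_succ 2 n]
    nlinarith

lemma blen_cut (j : ℕ) (o : Option (Finset ℕ)) (i' : ℤ) (T : ℕ) :
    blen (j, cut i' T o) = blen (j, o) := by
  cases o <;> rfl

lemma Wb_cut (j k : ℕ) (hjk : j ≤ k) (o : Option (Finset ℕ)) (i : ℤ) :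
    Wb (j, cut 0 (4 ^ k + 1) o) i = Wb (j, o) i := by
  have h0 : 4 ^ j ≤ 4 ^ k := Nat.pow_le_pow_right (by norm_num) hjk
  by_cases h : 0 ≤ i ∧ i < blen (j, o)
  · rw [Wb_in _ _ h.1 h.2, Wb_in _ _ h.1 (by rw [blen_cut]; exact h.2)]
    cases o with
    | none => rfl
    | some s =>
      show Lt.bit j _ = Lt.bit j _
      congr 1
      have h1 : i.toNat < 4 ^ k + 1 := by
        have h2 : blen (j, some s) = 4 ^ j + 1 := rfl
        omega
      have h2 : ((i.toNat : ℕ) : ℤ) = i := Int.toNat_of_nonneg h.1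
      simp only [Finset.mem_filter, Finset.mem_range, zero_add, h1, true_and, Int.toNat_natCast]
  · rw [Wb_pad (j, o) i (by omega), Wb_pad _ i (by rw [blen_cut]; omega)]

lemma d_star_letter {j k : ℕ} (h : k ≤ j) (o : Option (Finset ℕ)) (i : ℕ) :
    dist (emb (.star k)) (emb (letter j o i)) ≤ 3 / 4 - 1 / 16 * hf k := by
  have h1 := hf_pos k
  have h2 := hf_le_one k
  cases o with
  | none =>
    refine (d_star_star _ _).trans ?_
    have h3 := hf_anti h
    have h4 := hf_pos j
    have h5 : |hf k - hf j| ≤ 1 := by rw [abs_le]; constructor <;> linarith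
    linarith
  | some s => exact d_star_bit_le h _

lemma span_upper (k : ℕ) (hk : 2 ≤ k) :
    spanNum FF (3 / 4) (4 ^ (k + 1)) ≤ 2 ^ (2 * 4 ^ k) := by
  classical
  set T : ℕ := 4 ^ (k + 1) with hT
  have hT4 : T = 4 * 4 ^ k := by rw [hT, pow_succ]; ring
  have hs16 : 16 ≤ 4 ^ k := by
    calc 16 = 4 ^ 2 := by norm_num
      _ ≤ 4 ^ k := Nat.pow_le_pow_right (by norm_num) hk
  obtain ⟨j0, hj1, hj2⟩ := exists_level bl T
  let Q : Finset (ℤ ⊕ (ℤ × ℕ × Option (Finset ℕ))) :=
    (Finset.Icc (-(T : ℤ)) (nn bl j0)).disjSum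
      (Finset.Icc (-(T : ℤ)) T ×ˢ Finset.range (k + 1) ×ˢ optset (4 ^ k + 1))
  let w : (ℤ ⊕ (ℤ × ℕ × Option (Finset ℕ))) → ℤ → Lt := fun p t => match p with
    | .inl i' => qq Lt.hash (fun j => Wb (en j)) bl j0 (i' + t)
    | .inr q => Wb (q.2.1, q.2.2) (q.1 + t)
  obtain ⟨C1, hC1, hC2⟩ := exists_reps xs T Q w
  obtain ⟨ns, hns⟩ := xs_block (k + 1, none)
  have hlen : blen (k + 1, none) = T := rfl
  have hQ : Q.card ≤ (6 * T + 1) + (2 * T + 1) * ((k + 1) * (2 ^ (4 ^ k + 1) + 1)) := by
    show (Finset.disjSum _ _).card ≤ _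
    rw [Finset.card_disjSum, Finset.card_product, Finset.card_product, Finset.card_range,
      card_optset, Int.card_Icc, Int.card_Icc]
    have h1 : ((nn bl j0 : ℤ) + 1 - -(T : ℤ)).toNat ≤ 6 * T + 1 := by omega
    have h2 : ((T : ℤ) + 1 - -(T : ℤ)).toNat = 2 * T + 1 := by omega
    rw [h2]
    exact Nat.add_le_add_right h1 _
  have hη : 0 < 1 / 16 * hf (k + 1) := by have := hf_pos (k + 1); positivity
  have hmain := span_card_le Z0 (ε := 3 / 4) (by norm_num) T hη
    (C1 ∪ (Finset.Icc (-(T : ℤ)) T).image fun r => ns + r) (by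
      intro n
      have hle : (0 : ℝ) ≤ 3 / 4 - 1 / 16 * hf (k + 1) := by
        have := hf_le_one (k + 1)
        linarith
      rcases x0_window Lt.hash (fun j => Wb (en j)) bl hWb T j0 hj1 n with
        ⟨i', ha, hb, hw⟩ | ⟨l, _, i', hw⟩
      · obtain ⟨c, hc, hcw⟩ := hC2 n (.inl i') (by
          show _ ∈ Finset.disjSum _ _
          rw [Finset.inl_mem_disjSum, Finset.mem_Icc]
          exact ⟨ha, hb⟩) hw
        refine ⟨c, Finset.mem_union_left _ hc, fun i hi1 hi2 => ?_⟩
        have h1 := hcw i hi1 hi2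
        have h2 : Z0 (i + c) = Z0 (i + n) := by
          show emb (xs _) = emb (xs _)
          rw [add_comm i c, add_comm i n, h1]
        rw [h2, dist_self]
        exact hle
      · rcases hB : en l with ⟨j, o⟩
        have hw' : ∀ t : ℤ, 0 ≤ t → t < T → xs (n + t) = Wb (j, o) (i' + t) := by
          intro t h1 h2
          rw [← hB]
          exact hw t h1 h2
        by_cases hjk : j ≤ k
        · have h0 : 4 ^ j ≤ 4 ^ k := Nat.pow_le_pow_right (by norm_num) hjk
          have hb2 := blen_le (j, o)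
          simp only at hb2
          have hb3 := blen_cut j o 0 (4 ^ k + 1)
          obtain ⟨c, hc, hcw⟩ := hC2 n (.inr (max (-(T : ℤ)) (min i' T), j,
            cut 0 (4 ^ k + 1) o)) (by
              show _ ∈ Finset.disjSum _ _
              rw [Finset.inr_mem_disjSum, Finset.mem_product, Finset.mem_product, Finset.mem_Icc,
                Finset.mem_range]
              refine ⟨⟨?_, ?_⟩, ?_, cut_mem _ _ _⟩
              · show -(T : ℤ) ≤ max (-(T : ℤ)) (min i' T)
                omega
              · show max (-(T : ℤ)) (min i' T) ≤ T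
                omega
              · show j < k + 1
                omega) (by
            intro t ht1 ht2
            rw [hw' t ht1 ht2]
            show _ = Wb (j, cut 0 (4 ^ k + 1) o) (max (-(T : ℤ)) (min i' T) + t)
            rw [Wb_cut j k hjk]
            rcases lt_or_ge i' (-(T : ℤ)) with h3 | h3
            · rw [Wb_pad _ _ (by omega), Wb_pad _ _ (by omega)]
            · rcases lt_or_ge (T : ℤ) i' with h4 | h4
              · rw [Wb_pad _ _ (by omega), Wb_pad _ _ (by omega)]
              · congr 1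
                omega)
          refine ⟨c, Finset.mem_union_left _ hc, fun i hi1 hi2 => ?_⟩
          have h1 := hcw i hi1 hi2
          have h2 : Z0 (i + c) = Z0 (i + n) := by
            show emb (xs _) = emb (xs _)
            rw [add_comm i c, add_comm i n, h1]
          rw [h2, dist_self]
          exact hle
        · have hjk' : k + 1 ≤ j := by omega
          have h0 : 4 ^ (k + 1) ≤ 4 ^ j := Nat.pow_le_pow_right (by norm_num) hjk'
          have hb2 := le_blen (j, o)
          simp only at hb2
          have hb3 : T ≤ blen (j, o) := h0.trans hb2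
          set r : ℤ := if i' ≤ 0 then max i' (-(T : ℤ)) else
            if i' + T ≤ blen (j, o) then 0 else min (i' + T - blen (j, o)) T with hr
          have hr1 : -(T : ℤ) ≤ r ∧ r ≤ T := by
            rw [hr]
            split_ifs <;> omega
          refine ⟨ns + r, Finset.mem_union_right _ (Finset.mem_image_of_mem _
            (Finset.mem_Icc.2 hr1)), fun i hi1 hi2 => ?_⟩
          have h1 : Z0 (i + (ns + r)) = emb (Wb (k + 1, none) (r + i)) := by
            have := hns (r + i) (by omega) (by omega)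
            show emb (xs _) = _
            rw [← this]
            congr 2
            ring
          have h2 : Z0 (i + n) = emb (Wb (j, o) (i' + i)) := by
            show emb (xs _) = _
            rw [← hw' i hi1 hi2, add_comm]
          rw [h1, h2]
          by_cases hin : 0 ≤ i' + i ∧ i' + i < blen (j, o)
          · rw [Wb_in _ _ hin.1 hin.2, Wb_in (k + 1, none) (r + i) (by
              rw [hr]; split_ifs <;> omega) (by rw [hr]; split_ifs <;> omega)]
            exact d_star_letter hjk' _ _
          · rw [Wb_pad (j, o) (i' + i) (by omega), Wb_pad (k + 1, none) (r + i) (by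
              rw [hr]; split_ifs <;> omega), dist_self]
            exact hle)
  refine hmain.trans ?_
  have h3 : (C1 ∪ (Finset.Icc (-(T : ℤ)) T).image fun r => ns + r).card ≤
      (6 * T + 1) + (2 * T + 1) * ((k + 1) * (2 ^ (4 ^ k + 1) + 1)) + (2 * T + 1) := by
    refine (Finset.card_union_le _ _).trans (Nat.add_le_add (hC1.trans hQ) ?_)
    refine Finset.card_image_le.trans ?_
    rw [Int.card_Icc]
    omega
  refine h3.trans ?_
  have hk1 : k + 1 ≤ 4 ^ k := Nat.lt_pow_self (by norm_num)
  set s : ℕ := 4 ^ k with hs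
  have hE := pow_big s hs16
  have h5 : 2 ^ (2 * s) = 2 ^ s * 2 ^ s := by rw [two_mul, pow_add]
  have h6 : 2 ^ (s + 1) = 2 * 2 ^ s := by rw [pow_succ]; ring
  rw [h5, h6, hT4]
  set E : ℕ := 2 ^ s with hEdef
  have h7 : (2 * (4 * s) + 1) * ((k + 1) * (2 * E + 1)) ≤ 27 * s ^ 2 * E := by
    calc (2 * (4 * s) + 1) * ((k + 1) * (2 * E + 1)) ≤ (9 * s) * (s * (3 * E)) := by
          apply Nat.mul_le_mul (by omega)
          apply Nat.mul_le_mul hk1
          have : 1 ≤ E := Nat.one_le_two_pow
          omega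
      _ = _ := by ring
  have h8 : (6 * (4 * s) + 1) + (2 * (4 * s) + 1) ≤ s ^ 2 * E := by
    have h9 : 28 * 256 ≤ E := by nlinarith
    nlinarith
  calc (6 * (4 * s) + 1) + (2 * (4 * s) + 1) * ((k + 1) * (2 * E + 1)) + (2 * (4 * s) + 1)
      ≤ 27 * s ^ 2 * E + s ^ 2 * E := by omega
    _ = (28 * s ^ 2) * E := by ring
    _ ≤ E * E := Nat.mul_le_mul_right _ hE

lemma span_lower (k : ℕ) : 2 ^ (4 ^ k + 1) ≤ spanNum FF (3 / 4) (4 ^ k + 1) := by
  classical
  refine le_spanNum FF.continuous (by norm_num) fun S hS => ?_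
  set T : ℕ := 4 ^ k + 1 with hT
  have hT1 : 1 ≤ T := Nat.le_add_left 1 _
  have hT2 : (1 : ℤ) ≤ T := by exact_mod_cast hT1
  let dec : XX → Finset ℕ := fun y => (Finset.range T).filter fun t : ℕ => 1 / 2 < ((y.1 t).1 : ℝ)
  have hsub : (Finset.range T).powerset ⊆ S.image dec := by
    intro s hs
    rw [Finset.mem_powerset] at hs
    obtain ⟨n, hn⟩ := xs_block (k, some s)
    have hlen : blen (k, some s) = T := rfl
    have hx : ∀ i : ℤ, 0 ≤ i → i < T → xs (n + i) = .bit k (decide (i.toNat ∈ s)) := by
      intro i h1 h2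
      rw [hn i (by omega) (by omega), Wb_in _ _ h1 (by omega)]
      rfl
    obtain ⟨y, hy, hyx⟩ := hS (pt Z0 n)
    rw [bowen_lt (by norm_num)] at hyx
    have hd : ∀ t : ℕ, t < T → dist (y.1 t) (Z0 (t + n)) < 3 / 4 := fun t ht =>
      lt_of_le_of_lt (coord_le_iter Z0 y (pt Z0 n) t) (hyx t ht)
    have hη : ∃ η : ℝ, 0 < η ∧ η ≤ 1 / 8 ∧ ∀ t ∈ Finset.range T,
        dist (y.1 (t : ℕ)) (Z0 (t + n)) + η < 3 / 4 := by
      have h1 : ∀ᶠ η : ℝ in 𝓝[>] 0, ∀ t ∈ Finset.range T,
          dist (y.1 (t : ℕ)) (Z0 (t + n)) + η < 3 / 4 := by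
        rw [Filter.eventually_all_finset]
        intro t ht
        have h2 : Tendsto (fun η : ℝ => dist (y.1 (t : ℕ)) (Z0 (t + n)) + η) (𝓝[>] 0)
            (𝓝 (dist (y.1 (t : ℕ)) (Z0 (t + n)) + 0)) :=
          (tendsto_const_nhds.add tendsto_id).mono_left nhdsWithin_le_nhds
        rw [add_zero] at h2
        exact h2.eventually_lt_const (hd t (Finset.mem_range.1 ht))
      have h3 : ∀ᶠ η : ℝ in 𝓝[>] 0, η ≤ 1 / 8 :=
        (eventually_le_nhds (by norm_num : (0 : ℝ) < 1 / 8)).filter_mono nhdsWithin_le_nhds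
      have h4 : ∀ᶠ η : ℝ in 𝓝[>] 0, 0 < η := eventually_mem_nhdsWithin
      obtain ⟨η, h5, h6, h7⟩ := (h4.and (h3.and h1)).exists
      exact ⟨η, h5, h6, h7⟩
    obtain ⟨η, hη0, hη1, hη2⟩ := hη
    obtain ⟨m, hm⟩ := approx Z0 y 0 T hη0
    have hmn : ∀ t : ℤ, 0 ≤ t → t < T → dist (emb (xs (m + t))) (emb (.bit k
        (decide (t.toNat ∈ s)))) < 3 / 4 := by
      intro t h1 h2
      have h3 := hm t h1 h2
      have h4 := hη2 t.toNat (Finset.mem_range.2 (by omega))
      rw [Int.toNat_of_nonneg h1] at h4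
      have h5 : Z0 (t + n) = emb (.bit k (decide (t.toNat ∈ s))) := by
        show emb (xs _) = _
        rw [add_comm, hx t h1 h2]
      have h6 : Z0 (t + m) = emb (xs (m + t)) := by
        show emb (xs _) = _
        rw [add_comm]
      rw [← h5, ← h6]
      have h7 := dist_triangle (Z0 (t + m)) (y.1 t) (Z0 (t + n))
      rw [dist_comm (Z0 (t + m)) (y.1 t)] at h7
      linarith
    obtain ⟨l, i', hl⟩ := x0_free Lt.hash (fun j => Wb (en j)) bl hWb T (by omega) m (by
      intro t h1 h2 h3
      have h4 := hmn t h1 h2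
      have h5 : xs (m + t) = .hash := h3
      rw [h5] at h4
      have := d_hash_bit k (decide (t.toNat ∈ s))
      linarith)
    rcases hB : en l with ⟨j, o⟩
    have hl' : ∀ t : ℤ, 0 ≤ t → t < T → xs (m + t) = Wb (j, o) (i' + t) := by
      intro t h1 h2
      rw [← hB]
      exact hl t h1 h2
    have hin : ∀ t : ℤ, 0 ≤ t → t < T → 0 ≤ i' + t ∧ i' + t < blen (j, o) := by
      intro t h1 h2
      by_contra h3
      have h4 := hmn t h1 h2
      rw [hl' t h1 h2, Wb_pad _ _ (by omega)] at h4
      have := d_hash_bit k (decide (t.toNat ∈ s))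
      linarith
    have hi0 := hin 0 le_rfl (by omega)
    have hi1 := hin (T - 1) (by omega) (by omega)
    cases o with
    | none =>
      exfalso
      have h1 : blen (j, none) = 4 ^ j := rfl
      have h2 : 4 ^ k < 4 ^ j := by omega
      have h3 : k < j := (Nat.pow_lt_pow_iff_right (by norm_num)).1 h2
      have h4 := hmn 0 le_rfl (by omega)
      rw [hl' 0 le_rfl (by omega), Wb_in _ _ hi0.1 hi0.2] at h4
      have h5 := d_star_bit_ge h3 (decide ((0 : ℤ).toNat ∈ s))
      exact absurd h4 (not_lt.2 h5)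
    | some u =>
      refine Finset.mem_image.2 ⟨y, hy, ?_⟩
      ext t
      show t ∈ (Finset.range T).filter _ ↔ _
      rw [Finset.mem_filter, Finset.mem_range]
      by_cases htT : t < T
      · have h1 := hmn t (by omega) (by omega)
        have h2 := hin t (by omega) (by omega)
        have h3 := hl' t (by omega) (by omega)
        rw [Wb_in _ _ h2.1 h2.2] at h3
        have h3' : xs (m + t) = .bit j (decide ((i' + t).toNat ∈ u)) := h3
        rw [h3'] at h1
        have h4 : decide ((i' + t).toNat ∈ u) = decide ((t : ℤ).toNat ∈ s) := by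
          by_contra h5
          have := d_bit_bit_ne j k h5
          linarith
        rw [Int.toNat_natCast] at h4
        have h5 := hm t (by omega) (by omega)
        have h6 : Z0 (t + m) = emb (.bit j (decide (t ∈ s))) := by
          show emb (xs _) = _
          rw [add_comm, h3', h4]
        rw [h6, cube_dist] at h5
        have h7 := (le_max_left _ _).trans h5
        simp only [emb] at h7
        by_cases hts : t ∈ s
        · simp only [hts, iff_true]
          refine ⟨htT, ?_⟩
          simp only [hts, decide_true, bcoord, if_true] at h7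
          have := (abs_le.1 h7).1
          linarith
        · simp only [hts, iff_false, not_and, not_lt]
          intro _
          simp only [hts, decide_false, bcoord] at h7
          have h8 : |((y.1 (t : ℤ)).1 : ℝ) - 0| ≤ η := h7
          have := (abs_le.1 h8).2
          linarith
      · constructor
        · intro h
          exact absurd h.1 htT
        · intro h
          exact absurd (Finset.mem_range.1 (hs h)) htT
  have h1 := Finset.card_le_card hsub
  rw [Finset.card_powerset, Finset.card_range] at h1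
  exact h1.trans Finset.card_image_le

end Pool.Agent.R729.Weiss
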