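import Mathlib
import Pool.Agent.R729.Weiss.SpanQ2

/-!
# Growth rates of the example
-/

namespace Pool.Agent.R729.Weiss

open Filter Topology

lemma tendsto_sep {δ : ℝ} (hδ : 0 < δ) (hδ1 : δ ≤ 1) :
    Tendsto (fun T : ℕ => Real.log (sepNum FF δ T) / T) atTop (𝓝 (Real.log 2)) := by
  obtain ⟨C, hC0, hC⟩ := sep_upper hδ
  have h1 : Tendsto (fun T : ℕ => Real.log T / T) atTop (𝓝 0) := by
    have := (Real.tendsto_pow_log_div_mul_add_atTop 1 0 1 one_ne_zero).comp
      tendsto_natCast_atTop_atTop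
    simpa [Function.comp_def] using this
  have h2 : Tendsto (fun T : ℕ => Real.log C / (T : ℝ)) atTop (𝓝 0) :=
    tendsto_const_div_atTop_nhds_zero_nat _
  have h3 : Tendsto (fun T : ℕ => Real.log C / (T : ℝ) + 2 * (Real.log T / T) + Real.log 2)
      atTop (𝓝 (Real.log 2)) := by
    have := (h2.add (h1.const_mul 2)).add_const (Real.log 2)
    simpa using this
  refine tendsto_of_tendsto_of_tendsto_of_le_of_le' tendsto_const_nhds h3 ?_ ?_
  · filter_upwards [eventually_ge_atTop 1] with T hT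
    have h4 := sep_lower hδ hδ1 T hT
    have hT0 : (0 : ℝ) < T := by exact_mod_cast hT
    rw [le_div_iff₀ hT0]
    have h5 : ((2 : ℝ) ^ T) ≤ sepNum FF δ T := by exact_mod_cast h4
    have h6 := Real.log_le_log (by positivity) h5
    rw [Real.log_pow] at h6
    linarith
  · filter_upwards [eventually_ge_atTop 1] with T hT
    have h4 := sep_lower hδ hδ1 T hT
    have h7 : sepNum FF δ T ≤ C * T ^ 2 * 2 ^ T := sepNum_le fun S hS => hC T hT S hS
    have hT0 : (0 : ℝ) < T := by exact_mod_cast hT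
    have hpos : (0 : ℝ) < sepNum FF δ T := by
      have : 0 < sepNum FF δ T := lt_of_lt_of_le (by positivity) h4
      exact_mod_cast this
    have h5 : (sepNum FF δ T : ℝ) ≤ C * (T : ℝ) ^ 2 * 2 ^ T := by exact_mod_cast h7
    have h6 := Real.log_le_log hpos h5
    have hCr : (0 : ℝ) < C := by exact_mod_cast hC0
    rw [Real.log_mul (by positivity) (by positivity), Real.log_mul (by positivity) (by positivity),
      Real.log_pow, Real.log_pow] at h6
    rw [div_le_iff₀ hT0]
    have h8 : (Real.log C / (T : ℝ) + 2 * (Real.log T / T) + Real.log 2) * T =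
        Real.log C + 2 * Real.log T + T * Real.log 2 := by
      field_simp
    rw [h8]
    push_cast at h6
    linarith

lemma sep_big {δ : ℝ} (hδ : 1 < δ) (T : ℕ) : sepNum FF δ T ≤ 1 := by
  refine sepNum_le fun S hS => ?_
  rw [Finset.card_le_one]
  intro x hx y hy
  by_contra hne
  have h1 := hS x hx y hy hne
  have h2 : bowenDist FF T x y < δ := by
    rw [bowen_lt (by linarith)]
    intro t _
    refine lt_of_le_of_lt ?_ hδ
    exact cfg_dist_le_one _ _
  linarith

lemma sLow_eq {δ : ℝ} (hδ : 0 < δ) : sLow FF δ = sUp FF δ := by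
  unfold sLow sUp
  rcases le_or_gt δ 1 with h | h
  · have h1 := (continuous_coe_real_ereal.tendsto (Real.log 2)).comp (tendsto_sep hδ h)
    have h2 : liminf (fun T : ℕ => ((Real.log (sepNum FF δ T) / T : ℝ) : EReal)) atTop =
        ((Real.log 2 : ℝ) : EReal) := h1.liminf_eq
    have h3 : limsup (fun T : ℕ => ((Real.log (sepNum FF δ T) / T : ℝ) : EReal)) atTop =
        ((Real.log 2 : ℝ) : EReal) := h1.limsup_eq
    rw [h2, h3]
  · have h1 : (fun T : ℕ => ((Real.log (sepNum FF δ T) / T : ℝ) : EReal)) = fun _ => 0 := by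
      funext T
      have h2 := sep_big h T
      have h3 : Real.log (sepNum FF δ T) = 0 := by
        interval_cases h4 : sepNum FF δ T
        · simp
        · simp
      rw [h3]
      simp
    rw [h1]
    simp

lemma sUp_eq {δ : ℝ} (hδ : 0 < δ) (hδ1 : δ ≤ 1) : sUp FF δ = ((Real.log 2 : ℝ) : EReal) :=
  ((continuous_coe_real_ereal.tendsto (Real.log 2)).comp (tendsto_sep hδ hδ1)).limsup_eq

lemma entropy_FF : Tendsto (fun ε : ℝ => sUp FF ε) (𝓝[>] 0) (𝓝 ((Real.log 2 : ℝ) : EReal)) := by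
  refine tendsto_const_nhds.congr' ?_
  have h1 : ∀ᶠ ε : ℝ in 𝓝[>] 0, ε ≤ 1 :=
    (eventually_le_nhds (by norm_num : (0 : ℝ) < 1)).filter_mono nhdsWithin_le_nhds
  have h2 : ∀ᶠ ε : ℝ in 𝓝[>] 0, 0 < ε := eventually_mem_nhdsWithin
  filter_upwards [h1, h2] with ε h3 h4
  exact (sUp_eq h4 h3).symm

lemma pLow_le : pLow FF (3 / 4) ≤ ((Real.log 2 / 2 : ℝ) : EReal) := by
  unfold pLow
  refine Filter.liminf_le_of_frequently_le' ?_
  rw [Filter.frequently_atTop]
  intro a
  refine ⟨4 ^ (a + 2 + 1), ?_, ?_⟩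
  · have : a + 2 + 1 < 4 ^ (a + 2 + 1) := Nat.lt_pow_self (by norm_num)
    omega
  · rw [EReal.coe_le_coe_iff]
    have h1 := span_upper (a + 2) (by omega)
    have hT0 : (0 : ℝ) < ((4 ^ (a + 2 + 1) : ℕ) : ℝ) := by positivity
    rw [div_le_iff₀ hT0]
    have hl2 : 0 < Real.log 2 := Real.log_pos (by norm_num)
    rcases Nat.eq_zero_or_pos (spanNum FF (3 / 4) (4 ^ (a + 2 + 1))) with h0 | h0
    · rw [h0]
      simp only [Nat.cast_zero, Real.log_zero]
      positivity
    · have h2 : (spanNum FF (3 / 4) (4 ^ (a + 2 + 1)) : ℝ) ≤ 2 ^ (2 * 4 ^ (a + 2)) := by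
        exact_mod_cast h1
      have h3 := Real.log_le_log (by exact_mod_cast h0) h2
      rw [Real.log_pow] at h3
      refine h3.trans (le_of_eq ?_)
      push_cast
      rw [pow_succ (4 : ℝ) (a + 2)]
      ring

lemma le_pUp : ((Real.log 2 : ℝ) : EReal) ≤ pUp FF (3 / 4) := by
  unfold pUp
  refine Filter.le_limsup_of_frequently_le' ?_
  rw [Filter.frequently_atTop]
  intro a
  refine ⟨4 ^ a + 1, ?_, ?_⟩
  · have : a < 4 ^ a := Nat.lt_pow_self (by norm_num)
    omega
  · rw [EReal.coe_le_coe_iff]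
    have h1 := span_lower a
    have hT0 : (0 : ℝ) < ((4 ^ a + 1 : ℕ) : ℝ) := by positivity
    rw [le_div_iff₀ hT0]
    have h2 : ((2 : ℝ) ^ (4 ^ a + 1)) ≤ spanNum FF (3 / 4) (4 ^ a + 1) := by exact_mod_cast h1
    have h3 := Real.log_le_log (by positivity) h2
    rw [Real.log_pow] at h3
    linarith

lemma pLow_lt_pUp : pLow FF (3 / 4) < pUp FF (3 / 4) := by
  refine lt_of_le_of_lt pLow_le (lt_of_lt_of_le ?_ le_pUp)
  rw [EReal.coe_lt_coe_iff]
  have hl2 : 0 < Real.log 2 := Real.log_pos (by norm_num)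
  linarith

end Pool.Agent.R729.Weiss
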